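import Pool.Agent.SIT.LinAll
import Pool.Agent.SIT.GamClass
import Pool.Agent.SIT.SpPrime
import Pool.Agent.SIT.HexClass
import Pool.Agent.SIT.A7Class
import Pool.Agent.SIT.Aff3

/-!
# Strongly incidence-transitive codes for the groups of Hering's theorem, characteristic two

`T` denotes the group of all translations.
-/

namespace Pool.Agent.Results.MP_4a5c4b_co.AllGroups

open Pool.Agent.SIT Pool.Agent.SIT.Gen Finset

/-- `G` is 2-transitive, and its strongly incidence-transitive codes in `J(V, k)`,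
`3 ≤ k ≤ |V| / 2`, are exactly the `G`-orbits of the following `k`-sets: the translates of the
`F`-subspaces with property `P`; if `|F| = 4` or `16`, the exceptional hyperplanes; if `|F| = 2` or
`4`, the quadrics whose polar form has property `Q`. -/
def CodesAre (F : Type*) [Field F] [Fintype F] {V : Type*} [AddCommGroup V] [Module F V]
    [Fintype V] [DecidableEq V] (G : Subgroup (Equiv.Perm V)) (P : Submodule F V → Prop)
    (Q : (V → V → ZMod 2) → Prop) : Prop :=
  IsTwoTransitive G ∧ ∀ (k : ℕ) (C : Set (Finset V)), 3 ≤ k → 2 * k ≤ Fintype.card V →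
    ((IsSITCode G k C ∧ C.Nonempty) ↔ ∃ γ : Finset V, γ.card = k ∧ C = Orb G γ ∧
      ((∃ W : Submodule F V, P W ∧ Translate (W : Set V) γ) ∨ Exc F G γ ∨
        ∃ β, Quad F G γ β ∧ Q β))

/-- (1) `T.SL(V) ≤ G ≤ AΓL(V)`, `dim V ≥ 2`, or `G ≤ AΓL(V)` 2-transitive, `dim V = 1`. -/
def LinearCase : Prop :=
  ∀ (F V : Type) [Field F] [Fintype F] [CharP F 2] [AddCommGroup V] [Module F V] [Fintype V]
    [DecidableEq V] (G : Subgroup (Equiv.Perm V)), (LinG F G ∧ 2 ≤ Module.finrank F V) ∨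
      (SemiG F G ∧ IsTwoTransitive G ∧ Module.finrank F V = 1) →
    CodesAre F G (fun _ => True) (fun _ => True)

/-- (1) `G = 2^4.A_7`. -/
def SevenCase : Prop := CodesAre (ZMod 2) (permOf A7.G7) (fun _ => True) (fun _ => True)

/-- `W` contains its `B`-orthogonal. -/
def HasPerp {F : Type*} [Field F] {V : Type*} [AddCommGroup V] [Module F V]
    (B : V →ₗ[F] V →ₗ[F] F) (W : Set V) : Prop :=
  ∀ a, (∀ w ∈ W, B a w = 0) → a ∈ W

/-- The radical of `β`. -/
def rad {V : Type*} (β : V → V → ZMod 2) : Set V := {r | ∀ y, β r y = 0}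

/-- `β = 0` where `B = 0`. -/
def ZeroOn {F : Type*} [Field F] {V : Type*} (B : V → V → F) (β : V → V → ZMod 2) : Prop :=
  ∀ a b, B a b = 0 → β a b = 0

/-- (2) `T.Sp(V, B)' ≤ G ≤ AΓSp(V, B)`. -/
def SymplecticCase : Prop :=
  ∀ (F V : Type) [Field F] [Fintype F] [CharP F 2] [AddCommGroup V] [Module F V] [Fintype V]
    [DecidableEq V] (B : V →ₗ[F] V →ₗ[F] F) (G : Subgroup (Equiv.Perm V)), SpG' F B G →
    CodesAre F G (fun W => HasPerp B (W : Set V))
      (fun β => HasPerp B (rad β) ∨ ZeroOn (fun x y => B x y) β)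

/-- The linear bijection `a` preserves `B` and `L`. -/
def Isom {F : Type*} [Field F] {V : Type*} [AddCommGroup V] [Module F V] (B : V → V → F)
    (L : V → V → Prop) (a : V ≃ₗ[F] V) : Prop :=
  (∀ x y, B (a x) (a y) = B x y) ∧ ∀ x y, L (a x) (a y) ↔ L x y

/-- `T.I' ≤ G`, `I` the group of all `a` with `Isom B L a`, and every member of `G` is
`x ↦ g x + t` with `g` a semilinear similitude of `B` that preserves `L`. For `V = V6 F`,
`B = Hex.Bf`, `L = Hex.Col` (then `I = G_2(q)`): `T.G_2(q)' ≤ G ≤ AΓG_2(q)`. -/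
structure IsomG (F : Type*) [Field F] {V : Type*} [AddCommGroup V] [Module F V] (B : V → V → F)
    (L : V → V → Prop) (G : Subgroup (Equiv.Perm V)) : Prop where
  semi : ∀ h ∈ G, ∃ (g : V ≃+ V) (t : V) (σ : F ≃+* F) (c : F),
    (∀ (a : F) (x : V), g (a • x) = σ a • g x) ∧ c ≠ 0 ∧
    (∀ x y, B (g x) (g y) = c * σ (B x y)) ∧ (∀ x y, L (g x) (g y) ↔ L x y) ∧ ∀ x, h x = g x + t
  trans : ∀ t : V, Equiv.addRight t ∈ G
  comm : ∀ a b : V ≃ₗ[F] V, Isom B L a → Isom B L b →
    ∀ g : Equiv.Perm V, (∀ x, g x = a (b (a.symm (b.symm x)))) → g ∈ G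

/-- `W` is a hyperplane and `G` contains all `a` with `Isom B L a`. -/
def Hyper {F : Type*} [Field F] {V : Type*} [AddCommGroup V] [Module F V] (B : V → V → F)
    (L : V → V → Prop) (G : Subgroup (Equiv.Perm V)) (W : Submodule F V) : Prop :=
  Module.finrank F W + 1 = Module.finrank F V ∧ ∀ a : V ≃ₗ[F] V, Isom B L a → a.toEquiv ∈ G

/-- (3) `T.G_2(q)' ≤ G ≤ AΓG_2(q)`. -/
def HexagonCase : Prop :=
  ∀ (F : Type) [Field F] [Fintype F] [DecidableEq F] [CharP F 2]
    (G : Subgroup (Equiv.Perm (Hex.V6 F))), IsomG F Hex.Bf Hex.Col G →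
    CodesAre F G (fun W => Hyper Hex.Bf Hex.Col G W ∨ LinePerp (W : Set (Hex.V6 F)))
      (fun β => LinePerp (rad β) ∨ ZeroOn Hex.Bf β)

/-- (4) `G ≤ AGL(3, 2)` 2-transitive, the translations are not assumed. -/
def SmallCase : Prop :=
  ∀ G : Subgroup (AGL 3), IsTwoTransitive (permOf G) → ∀ (k : ℕ) (C : Set (Finset (Vec 3))),
    3 ≤ k → 2 * k ≤ Fintype.card (Vec 3) →
    ((IsSITCode (permOf G) k C ∧ C.Nonempty) ↔ G = ⊤ ∧ k = 4 ∧ C = FlatCode 3 2)

theorem result : LinearCase ∧ SevenCase ∧ SymplecticCase ∧ HexagonCase ∧ SmallCase := by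
  refine ⟨?_, ?_, ?_, ?_, fun G hG k C hk hk' => class_3 G hG k C hk hk'⟩
  · rintro F V _ _ _ _ _ _ _ G (⟨hG, hdim⟩ | ⟨hG, h2, hdim⟩)
    · refine ⟨(lin_class hG hdim).1, fun k C hk hk' => ?_⟩
      rw [(lin_class hG hdim).2 k C hk hk']
      simp only [true_and, and_true]
    · refine ⟨h2, fun k C hk hk' => ?_⟩
      rw [gam_class hdim hG h2 k C hk hk']
      simp only [true_and, and_true]
  · refine ⟨a7_class.1, fun k C hk hk' => ?_⟩
    rw [a7_class.2 k C hk hk']
    simp only [true_and, and_true]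
  · intro F V _ _ _ _ _ _ _ B G hG
    exact sp_class hG
  · intro F _ _ _ _ G hG
    have hG' : HexG' F G := ⟨hG.semi, hG.trans, fun a b ha hb g hg => hG.comm a b ha hb g hg⟩
    have h6 : Module.finrank F (Hex.V6 F) = 6 := by
      rw [Module.finrank_prod, Module.finrank_fin_fun]
    refine ⟨(hex_class hG').1, fun k C hk hk' => ?_⟩
    rw [(hex_class hG').2 k C hk hk']
    have e : ∀ W : Submodule F (Hex.V6 F), ((Module.finrank F W = 5 ∧
        ∀ a : Hex.V6 F ≃ₗ[F] Hex.V6 F, HexIso a → a.toEquiv ∈ G) ∨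
          LinePerp (W : Set (Hex.V6 F))) ↔
        (Hyper Hex.Bf Hex.Col G W ∨ LinePerp (W : Set (Hex.V6 F))) := by
      intro W
      refine or_congr ?_ Iff.rfl
      unfold Hyper
      rw [h6]
      refine and_congr ⟨fun h => by omega, fun h => by omega⟩ Iff.rfl
    simp only [e]
    exact Iff.rfl

end Pool.Agent.Results.MP_4a5c4b_co.AllGroups
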