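import Pool.Agent.SIT.Existence

/-!
# Strongly incidence-transitive codes in `J(F_2^n, k)` admitting affine groups

For every group `G ≤ AGL(n, 2)`, every `G`-strongly incidence-transitive code in `J(F_2^n, k)`
with at least two codewords and `3 ≤ k ≤ 2^(n-1)` consists of affine subspaces, or of affine
images of one quadric `x₀ x₁ + ⋯ + x_{2m-2} x_{2m-1} = 1` with `m ≥ 2`.  Conversely all these
sets occur as codewords, already for the 2-transitive group `G = AGL(n, 2)`, and for
`G = AGL(n, 2)` the codes are determined completely.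
-/

namespace Pool.Agent.Results.MP_4a5c4b_co.SITCodewords

open Pool.Agent.SIT Finset

/-- A codeword of a `G`-SIT code is strongly incidence-transitive. -/
lemma sitSet_of_code {n k : ℕ} {G : Subgroup (AGL n)} {C : Set (Finset (Vec n))}
    (hC : IsSITCode G k C) {γ : Finset (Vec n)} (hγ : γ ∈ C) : SITSet γ := by
  intro u hu u' hu' w hw w' hw'
  obtain ⟨g, _, h1, h2, h3⟩ := hC.transitive γ hγ u hu u' hu' γ hγ w hw w' hw'
  exact ⟨g.toEquiv, isAff_agl g, (act_eq_iff g γ γ).1 h1, h2, h3⟩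

/-- All codewords of a `G`-SIT code are images of one of them. -/
lemma codeword_image {n k : ℕ} {G : Subgroup (AGL n)} {C : Set (Finset (Vec n))}
    (hC : IsSITCode G k C) {γ δ : Finset (Vec n)} (hγ : γ ∈ C) (hδ : δ ∈ C)
    (hk1 : 1 ≤ k) (hk2 : k < 2 ^ n) : ∃ g ∈ G, act g γ = δ := by
  have h1 := hC.card_eq γ hγ
  have h2 := hC.card_eq δ hδ
  obtain ⟨u, hu⟩ : γ.Nonempty := by rw [← Finset.card_pos]; omega
  obtain ⟨w, hw⟩ : δ.Nonempty := by rw [← Finset.card_pos]; omega
  obtain ⟨u', hu'⟩ := exists_notMem_of_card h1 hk2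
  obtain ⟨w', hw'⟩ := exists_notMem_of_card h2 hk2
  obtain ⟨g, hg, h3, _⟩ := hC.transitive γ hγ u hu u' hu' δ hδ w hw w' hw'
  exact ⟨g, hg, h3⟩

theorem result (n : ℕ) (hn : 3 ≤ n) :
    -- classification
    (∀ (k : ℕ) (G : Subgroup (AGL n)) (C : Set (Finset (Vec n))),
      3 ≤ k → k ≤ 2 ^ (n - 1) → C.Nontrivial → IsSITCode G k C →
        (∃ d, 2 ≤ d ∧ d < n ∧ k = 2 ^ d ∧ C ⊆ FlatCode n d ∧
          (G = ⊤ → C = FlatCode n d)) ∨
        (∃ (m : ℕ) (h : 2 * m ≤ n), 2 ≤ m ∧ k = 2 ^ (n - m - 1) * (2 ^ m - 1) ∧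
          C ⊆ QuadricCode h ∧ (G = ⊤ → C = QuadricCode h))) ∧
    -- existence
    IsTwoTransitive (⊤ : Subgroup (AGL n)) ∧
    (∀ d, 2 ≤ d → d < n →
      (FlatCode n d).Nontrivial ∧ IsSITCode ⊤ (2 ^ d) (FlatCode n d)) ∧
    (∀ (m : ℕ) (h : 2 * m ≤ n), 2 ≤ m →
      (QuadricCode h).Nontrivial ∧
        IsSITCode ⊤ (2 ^ (n - m - 1) * (2 ^ m - 1)) (QuadricCode h)) := by
  refine ⟨?_, twoTransitive_top n, ?_, ?_⟩
  · intro k G C hk3 hkn hnt hC
    obtain ⟨γ, hγ⟩ := hnt.nonempty
    have h2n : 2 ^ n = 2 * 2 ^ (n - 1) := by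
      rw [← pow_succ']
      congr 1
      omega
    have hkn' : k < 2 ^ n := by
      have : 0 < 2 ^ (n - 1) := by positivity
      omega
    have hcard := hC.card_eq γ hγ
    have hne : γ.Nonempty := by rw [← Finset.card_pos]; omega
    -- a code contained in an `AGL(n,2)`-orbit
    have hsub : ∀ D : Set (Finset (Vec n)), (∀ g : AGL n, ∀ δ ∈ D, act g δ ∈ D) → γ ∈ D →
        C ⊆ D := by
      intro D hD hγD δ hδ
      obtain ⟨g, _, rfl⟩ := codeword_image hC hγ hδ (by omega) hkn'
      exact hD g γ hγD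
    have heq : ∀ D : Set (Finset (Vec n)), IsSITCode ⊤ k D → γ ∈ D → G = ⊤ → D ⊆ C := by
      intro D hD hγD hG δ hδ
      obtain ⟨g, _, rfl⟩ := codeword_image hD hγD hδ (by omega) hkn'
      exact hC.invariant g (by rw [hG]; exact Subgroup.mem_top _) γ hγ
    rcases sit_set_classification (sitSet_of_code hC hγ) hne (by omega) with ⟨A, hA⟩ | ⟨m, h, hm, hQ⟩
    · left
      have hcA := card_flat hA hne
      rw [hcard] at hcA
      have hd2 : 2 ≤ Module.finrank (ZMod 2) A.direction := by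
        by_contra hcon
        have : Module.finrank (ZMod 2) A.direction = 0 ∨
          Module.finrank (ZMod 2) A.direction = 1 := by omega
        rcases this with h | h <;> rw [h] at hcA <;> norm_num at hcA <;> omega
      have hdn : Module.finrank (ZMod 2) A.direction < n := by
        rw [hcA] at hkn'
        exact (Nat.pow_lt_pow_iff_right (by norm_num)).1 hkn'
      have hS := flatCode_SIT (n := n) (d := Module.finrank (ZMod 2) A.direction) (by omega)
      have hγF : γ ∈ FlatCode n (Module.finrank (ZMod 2) A.direction) := ⟨A, hA, rfl⟩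
      have h1 := hsub _ (fun g δ hδ => hS.invariant g (Subgroup.mem_top _) δ hδ) hγF
      refine ⟨_, hd2, hdn, hcA, h1, ?_⟩
      intro hG
      rw [← hcA] at hS
      exact Set.Subset.antisymm h1 (heq _ hS hγF hG)
    · right
      have hS := quadricCode_SIT h (by omega)
      have hk := hS.card_eq γ hQ
      rw [hcard] at hk
      have h1 := hsub _ (fun g δ hδ => hS.invariant g (Subgroup.mem_top _) δ hδ) hQ
      refine ⟨m, h, hm, hk, h1, ?_⟩
      intro hG
      rw [← hk] at hS
      exact Set.Subset.antisymm h1 (heq _ hS hQ hG)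
  · intro d hd hdn
    exact ⟨flatCode_nontrivial (by omega) hdn, flatCode_SIT (by omega)⟩
  · intro m h hm
    exact ⟨quadricCode_nontrivial h (by omega), quadricCode_SIT h (by omega)⟩

end Pool.Agent.Results.MP_4a5c4b_co.SITCodewords
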